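import Pool.Agent.U965.ZL.Pw

/-! # Piecewise linear approximation of a sequence with small fluctuations: counting (helper965) -/

set_option autoImplicit false

open Filter Finset

namespace Pool.Agent.U965.ZL

/-- the fluctuations of the sums of `s` consecutive terms are not larger than `√(log s)` -/
def Small (y : ℕ → ℝ) : Prop := ∀ θ : ℝ, 0 < θ → ∃ A : ℝ, 0 < A ∧ ∃ s0 : ℕ, ∀ s : ℕ, s0 ≤ s →
  ∀ᶠ N : ℕ in atTop,
  (((Icc 1 N).filter (fun n => A * Real.sqrt (Real.log s) ≤ |y (n + s) - y n - s|)).card : ℝ) ≤ θ * N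

lemma inj {r : ℕ} {a a' n n' : ℕ} (ha : a < r) (ha' : a' < r) (hn : a + 1 ≤ n)
    (hn' : a' + 1 ≤ n') (h1 : n - st r a n = n' - st r a' n') (h2 : st r a n = st r a' n') :
    a = a' ∧ n = n' := by
  have e1 := st_le (r := r) hn
  have e2 := st_le (r := r) hn'
  refine ⟨?_, by omega⟩
  have e3 := st_mod (r := r) (a := a) (n := n)
  have e4 := st_mod (r := r) (a := a') (n := n')
  rw [h2] at e3
  have e5 := Nat.ModEq.add_right_cancel' 1 (e3.symm.trans e4)
  exact Nat.ModEq.eq_of_lt_of_lt e5 ha ha'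

/-- a good offset -/
lemma good_offset (y : ℕ → ℝ) (r N : ℕ) (hr : 0 < r) (w T : ℝ)
    (hT : (∑ s ∈ range r, (((Icc 1 N).filter (fun n => w ≤ |y (n + s) - y n - s|)).card : ℝ)) +
      r * (((Icc 1 N).filter (fun n => w ≤ |y (n + r) - y n - r|)).card : ℝ) ≤ r * T) :
    ∃ a < r, (((Icc 1 N).filter (fun n => a + 1 ≤ n ∧ 2 * w < |y n - pl y r a n|)).card : ℝ) ≤ T := by
  classical
  set B : ℕ → Finset ℕ := fun s => (Icc 1 N).filter (fun n => w ≤ |y (n + s) - y n - s|) with hB
  set F1 : ℕ → Finset ℕ := fun a => (Icc 1 N).filter (fun n => a + 1 ≤ n ∧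
    w ≤ |y n - y (st r a n) - ((n - st r a n : ℕ) : ℝ)|) with hF1
  set F2 : ℕ → Finset ℕ := fun a => (Icc 1 N).filter (fun n => a + 1 ≤ n ∧
    w ≤ |y (st r a n + r) - y (st r a n) - r|) with hF2
  have hst1 : ∀ a n : ℕ, 1 ≤ st r a n := by
    intro a n
    unfold st
    omega
  have c1 : ∑ a ∈ range r, (F1 a).card ≤ ∑ s ∈ range r, (B s).card := by
    rw [← card_sigma, ← card_sigma]
    refine card_le_card_of_injOn (fun p => ⟨p.2 - st r p.1 p.2, st r p.1 p.2⟩) ?_ ?_
    · rintro ⟨a, n⟩ hp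
      simp only [coe_sigma, Set.mem_sigma_iff, mem_coe, mem_range, hF1, mem_filter, mem_Icc] at hp
      obtain ⟨ha, ⟨hn1, hn2⟩, hn3, hw⟩ := hp
      have e1 := st_le (r := r) hn3
      have e2 := lt_st_add (a := a) (n := n) hr
      simp only [coe_sigma, Set.mem_sigma_iff, mem_coe, mem_range, hB, mem_filter, mem_Icc]
      refine ⟨by omega, ⟨hst1 a n, by omega⟩, ?_⟩
      rw [Nat.add_sub_cancel' e1]
      exact hw
    · rintro ⟨a, n⟩ hp ⟨a', n'⟩ hp' heq
      simp only [coe_sigma, Set.mem_sigma_iff, mem_coe, mem_range, hF1, mem_filter, mem_Icc] at hp hp'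
      simp only [Sigma.mk.injEq, heq_eq_eq] at heq
      obtain ⟨h1, h2⟩ := inj hp.1 hp'.1 hp.2.2.1 hp'.2.2.1 heq.1 heq.2
      subst h1 h2
      rfl
  have c2 : ∑ a ∈ range r, (F2 a).card ≤ r * (B r).card := by
    have e : r * (B r).card = ∑ s ∈ range r, (B r).card := by simp
    rw [e, ← card_sigma, ← card_sigma]
    refine card_le_card_of_injOn (fun p => ⟨p.2 - st r p.1 p.2, st r p.1 p.2⟩) ?_ ?_
    · rintro ⟨a, n⟩ hp
      simp only [coe_sigma, Set.mem_sigma_iff, mem_coe, mem_range, hF2, mem_filter, mem_Icc] at hp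
      obtain ⟨ha, ⟨hn1, hn2⟩, hn3, hw⟩ := hp
      have e1 := st_le (r := r) hn3
      have e2 := lt_st_add (a := a) (n := n) hr
      simp only [coe_sigma, Set.mem_sigma_iff, mem_coe, mem_range, hB, mem_filter, mem_Icc]
      exact ⟨by omega, ⟨hst1 a n, by omega⟩, hw⟩
    · rintro ⟨a, n⟩ hp ⟨a', n'⟩ hp' heq
      simp only [coe_sigma, Set.mem_sigma_iff, mem_coe, mem_range, hF2, mem_filter, mem_Icc] at hp hp'
      simp only [Sigma.mk.injEq, heq_eq_eq] at heq
      obtain ⟨h1, h2⟩ := inj hp.1 hp'.1 hp.2.2.1 hp'.2.2.1 heq.1 heq.2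
      subst h1 h2
      rfl
  have c3 : ∀ a, (((Icc 1 N).filter (fun n => a + 1 ≤ n ∧ 2 * w < |y n - pl y r a n|)).card) ≤
      (F1 a).card + (F2 a).card := by
    intro a
    refine (card_le_card ?_).trans (card_union_le _ _)
    intro n hn
    rw [mem_filter] at hn
    obtain ⟨hn1, hn2, hn3⟩ := hn
    rw [mem_union]
    by_contra hcon
    rw [not_or] at hcon
    have h1 : |y n - y (st r a n) - ((n - st r a n : ℕ) : ℝ)| ≤ w := by
      by_contra hc
      push Not at hc
      exact hcon.1 (mem_filter.2 ⟨hn1, hn2, hc.le⟩)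
    have h2 : |y (st r a n + r) - y (st r a n) - r| ≤ w := by
      by_contra hc
      push Not at hc
      exact hcon.2 (mem_filter.2 ⟨hn1, hn2, hc.le⟩)
    have := dist_le y hr hn2 h1 h2
    linarith
  have hne : (range r).Nonempty := by
    rw [nonempty_range_iff]
    omega
  have hsum : ∑ a ∈ range r,
      (((Icc 1 N).filter (fun n => a + 1 ≤ n ∧ 2 * w < |y n - pl y r a n|)).card : ℝ) ≤
      ∑ a ∈ range r, T := by
    rw [sum_const, card_range, nsmul_eq_mul]
    refine le_trans ?_ hT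
    have h4 : ∑ a ∈ range r, (((Icc 1 N).filter (fun n => a + 1 ≤ n ∧ 2 * w < |y n - pl y r a n|)).card) ≤
        ∑ s ∈ range r, (B s).card + r * (B r).card := by
      refine (sum_le_sum fun a _ => c3 a).trans ?_
      rw [sum_add_distrib]
      omega
    exact_mod_cast h4
  obtain ⟨a, ha, h⟩ := exists_le_of_sum_le hne hsum
  exact ⟨a, mem_range.1 ha, h⟩

/-- the number of the nodes -/
lemma nodes (y : ℕ → ℝ) (r a N : ℕ) (hr : 0 < r) :
    ((Icc 1 N).filter (fun n => pl y r a (n + 2) - 2 * pl y r a (n + 1) + pl y r a n ≠ 0)).card ≤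
      N / r := by
  classical
  have h : (Icc 1 (N / r)).card = N / r := by simp
  rw [← h]
  refine card_le_card_of_injOn (fun n => (n - a) / r) ?_ ?_
  · intro n hn
    rw [mem_coe, mem_filter, mem_Icc] at hn
    obtain ⟨⟨h1, h2⟩, h3⟩ := hn
    have h4 : r ∣ (n - a) ∧ a < n := by
      by_contra hc
      apply h3
      apply second_diff y hr
      by_cases h5 : r ∣ (n - a)
      · right
        by_contra h6
        exact hc ⟨h5, by omega⟩
      · left
        exact h5
    rw [mem_coe, mem_Icc]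
    constructor
    · exact Nat.div_pos (Nat.le_of_dvd (by omega) h4.1) hr
    · exact Nat.div_le_div_right (by omega)
  · intro n hn n' hn' he
    have key : ∀ m ∈ ((Icc 1 N).filter (fun n => pl y r a (n + 2) - 2 * pl y r a (n + 1) + pl y r a n ≠ 0)),
        r ∣ (m - a) ∧ a < m := by
      intro m hm
      rw [mem_filter, mem_Icc] at hm
      obtain ⟨⟨h1, h2⟩, h3⟩ := hm
      by_contra hc
      apply h3
      apply second_diff y hr
      by_cases h5 : r ∣ (m - a)
      · right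
        by_contra h6
        exact hc ⟨h5, by omega⟩
      · left
        exact h5
    obtain ⟨k1, k2⟩ := key n hn
    obtain ⟨k3, k4⟩ := key n' hn'
    simp only at he
    have e1 := Nat.div_mul_cancel k1
    have e2 := Nat.div_mul_cancel k3
    rw [he] at e1
    omega

/-- **Approximation by piecewise linear sequences.** -/
theorem approx {y : ℕ → ℝ} (hL : Small y) (η : ℝ) (hη : 0 < η) : ∃ c K0 : ℝ, 0 < c ∧ 0 < K0 ∧
    ∀ K : ℝ, K0 ≤ K → ∀ᶠ N : ℕ in atTop, ∃ z : ℕ → ℝ,
    (((Icc 1 N).filter (fun n => z (n + 2) - 2 * z (n + 1) + z n ≠ 0)).card : ℝ) ≤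
      Real.exp (-c * K ^ 2) * N ∧
    (((Icc 1 N).filter (fun n => K < |y n - z n|)).card : ℝ) ≤ η * N := by
  classical
  obtain ⟨A, hA, s0, hs0⟩ := hL (η / 8) (by positivity)
  obtain ⟨D, hD⟩ : ∃ D : ℝ, D = 1 / (4 * A ^ 2) := ⟨_, rfl⟩
  have hD0 : 0 < D := by rw [hD]; positivity
  -- K0 large
  have hev : ∀ᶠ K : ℝ in atTop, 1 ≤ K ∧ (8 * (s0 + 1 : ℝ) / η + s0 + 2) ≤ Real.exp (D * K ^ 2) / 2 ∧
      2 ≤ Real.exp (D / 2 * K ^ 2) := by
    have h1 : Tendsto (fun K : ℝ => Real.exp (D * K ^ 2) / 2) atTop atTop :=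
      (Real.tendsto_exp_atTop.comp ((tendsto_pow_atTop (by norm_num : (2 : ℕ) ≠ 0)).const_mul_atTop hD0)).atTop_div_const
        (by norm_num)
    have h2 : Tendsto (fun K : ℝ => Real.exp (D / 2 * K ^ 2)) atTop atTop :=
      Real.tendsto_exp_atTop.comp ((tendsto_pow_atTop (by norm_num : (2 : ℕ) ≠ 0)).const_mul_atTop (by positivity))
    exact (eventually_ge_atTop 1).and ((h1.eventually_ge_atTop _).and (h2.eventually_ge_atTop _))
  obtain ⟨K0, hK0⟩ := hev.exists_forall_of_atTop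
  refine ⟨D / 2, max K0 1, by positivity, by positivity, fun K hK => ?_⟩
  obtain ⟨hK1, hK2, hK3⟩ := hK0 K ((le_max_left _ _).trans hK)
  obtain ⟨r, hr⟩ : ∃ r : ℕ, r = ⌊Real.exp (D * K ^ 2)⌋₊ := ⟨_, rfl⟩
  have hexp0 : 0 < Real.exp (D * K ^ 2) := Real.exp_pos _
  have hr1 : (r : ℝ) ≤ Real.exp (D * K ^ 2) := by rw [hr]; exact Nat.floor_le hexp0.le
  have hr2 : Real.exp (D * K ^ 2) < r + 1 := by rw [hr]; exact Nat.lt_floor_add_one _
  have hs00 : (0 : ℝ) ≤ s0 := Nat.cast_nonneg _
  have hηs : 0 ≤ 8 * (s0 + 1 : ℝ) / η := by positivity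
  have hE2 : (2 : ℝ) ≤ Real.exp (D * K ^ 2) / 2 := by linarith
  have hrE : Real.exp (D * K ^ 2) / 2 ≤ r := by linarith
  have hr0 : (0 : ℝ) < r := by linarith
  have hrN : 0 < r := by exact_mod_cast hr0
  have hrs : (s0 : ℝ) ≤ r := by linarith
  have hrsN : s0 ≤ r := by exact_mod_cast hrs
  have hrη : (s0 : ℝ) ≤ η / 8 * r := by
    have h1 : 8 * (s0 + 1 : ℝ) / η ≤ r := by linarith
    rw [div_le_iff₀ hη] at h1
    linarith
  obtain ⟨w, hw⟩ : ∃ w : ℝ, w = A * Real.sqrt (Real.log r) := ⟨_, rfl⟩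
  have h2w : 2 * w ≤ K := by
    have h1 : Real.log r ≤ D * K ^ 2 := by
      have := Real.log_le_log hr0 hr1
      rwa [Real.log_exp] at this
    have h2 : Real.sqrt (Real.log r) ≤ K / (2 * A) := by
      apply Real.sqrt_le_iff.2
      constructor
      · positivity
      · rw [div_pow]
        refine h1.trans (le_of_eq ?_)
        rw [hD]
        field_simp
        ring
    have h3 := mul_le_mul_of_nonneg_left h2 hA.le
    have h4 : A * (K / (2 * A)) = K / 2 := by field_simp
    rw [hw]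
    linarith
  have hevN : ∀ᶠ N : ℕ in atTop, ∀ s ∈ Icc s0 r,
      (((Icc 1 N).filter (fun n => A * Real.sqrt (Real.log s) ≤ |y (n + s) - y n - s|)).card : ℝ) ≤ η / 8 * N := by
    rw [Filter.eventually_all_finset]
    intro s hs
    exact hs0 s (mem_Icc.1 hs).1
  have hevN2 : ∀ᶠ N : ℕ in atTop, (r : ℝ) ≤ η / 8 * N :=
    (tendsto_natCast_atTop_atTop.const_mul_atTop (by positivity : 0 < η / 8)).eventually_ge_atTop _
  filter_upwards [hevN, hevN2] with N hN hN2
  have hN0 : (0 : ℝ) ≤ N := Nat.cast_nonneg _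
  have hbad : ∀ s ∈ Icc s0 r,
      (((Icc 1 N).filter (fun n => w ≤ |y (n + s) - y n - s|)).card : ℝ) ≤ η / 8 * N := by
    intro s hs
    refine le_trans ?_ (hN s hs)
    refine Nat.cast_le.2 (card_le_card ?_)
    intro n hn
    rw [mem_filter] at hn ⊢
    refine ⟨hn.1, le_trans ?_ hn.2⟩
    rw [hw]
    apply mul_le_mul_of_nonneg_left _ hA.le
    apply Real.sqrt_le_sqrt
    rcases Nat.eq_zero_or_pos s with h0 | h0
    · subst h0
      simp only [Nat.cast_zero, Real.log_zero]
      exact Real.log_nonneg (by linarith)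
    · exact Real.log_le_log (by exact_mod_cast h0) (by exact_mod_cast (mem_Icc.1 hs).2)
  have hsmall : ∀ s, (((Icc 1 N).filter (fun n => w ≤ |y (n + s) - y n - s|)).card : ℝ) ≤ N := by
    intro s
    have := card_filter_le (Icc 1 N) (fun n => w ≤ |y (n + s) - y n - s|)
    rw [Nat.card_Icc, Nat.add_sub_cancel] at this
    exact_mod_cast this
  have hT : (∑ s ∈ range r, (((Icc 1 N).filter (fun n => w ≤ |y (n + s) - y n - s|)).card : ℝ)) +
      r * (((Icc 1 N).filter (fun n => w ≤ |y (n + r) - y n - r|)).card : ℝ) ≤ r * (3 * (η / 8) * N) := by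
    have h1 := hbad r (mem_Icc.2 ⟨hrsN, le_rfl⟩)
    have h2 : ∑ s ∈ range r, (((Icc 1 N).filter (fun n => w ≤ |y (n + s) - y n - s|)).card : ℝ) ≤
        ∑ s ∈ range r, ((if s < s0 then (N : ℝ) else 0) + η / 8 * N) := by
      refine sum_le_sum fun s hs => ?_
      split_ifs with h
      · have := hsmall s
        have : 0 ≤ η / 8 * N := by positivity
        linarith [hsmall s]
      · have := hbad s (mem_Icc.2 ⟨by omega, (mem_range.1 hs).le⟩)
        linarith
    have h3 : ∑ s ∈ range r, ((if s < s0 then (N : ℝ) else 0) + η / 8 * N) ≤ s0 * N + r * (η / 8 * N) := by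
      rw [sum_add_distrib, sum_const, card_range, nsmul_eq_mul, ← sum_filter, sum_const, nsmul_eq_mul]
      have h4 : ((range r).filter (fun s => s < s0)).card ≤ s0 := by
        have : (range r).filter (fun s => s < s0) ⊆ range s0 := by
          intro s hs
          rw [mem_filter] at hs
          exact mem_range.2 hs.2
        have := card_le_card this
        rwa [card_range] at this
      have h5 : (((range r).filter (fun s => s < s0)).card : ℝ) ≤ s0 := by exact_mod_cast h4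
      have h6 := mul_le_mul_of_nonneg_right h5 hN0
      linarith
    have h7 := mul_le_mul_of_nonneg_right hrη hN0
    have h8 := mul_le_mul_of_nonneg_left h1 hr0.le
    nlinarith
  obtain ⟨a, ha, hcard⟩ := good_offset y r N hrN w _ hT
  refine ⟨pl y r a, ?_, ?_⟩
  · have h1 := nodes y r a N hrN
    have h2 : ((N / r : ℕ) : ℝ) ≤ (N : ℝ) / r := Nat.cast_div_le
    have h3 : (((Icc 1 N).filter (fun n => pl y r a (n + 2) - 2 * pl y r a (n + 1) + pl y r a n ≠ 0)).card : ℝ) ≤
        (N : ℝ) / r := le_trans (by exact_mod_cast h1) h2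
    refine h3.trans ?_
    rw [div_eq_inv_mul]
    apply mul_le_mul_of_nonneg_right _ hN0
    have h4 : (r : ℝ)⁻¹ ≤ 2 * Real.exp (-(D * K ^ 2)) := by
      rw [Real.exp_neg]
      have h5 : (r : ℝ)⁻¹ ≤ (Real.exp (D * K ^ 2) / 2)⁻¹ := inv_anti₀ (by positivity) hrE
      refine h5.trans (le_of_eq ?_)
      rw [inv_div]
      ring
    refine h4.trans ?_
    have h6 : Real.exp (-(D / 2) * K ^ 2) = Real.exp (-(D * K ^ 2)) * Real.exp (D / 2 * K ^ 2) := by
      rw [← Real.exp_add]
      congr 1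
      ring
    rw [h6, mul_comm]
    exact mul_le_mul_of_nonneg_left hK3 (Real.exp_pos _).le
  · have h1 : (Icc 1 N).filter (fun n => K < |y n - pl y r a n|) ⊆
        range (a + 1) ∪ (Icc 1 N).filter (fun n => a + 1 ≤ n ∧ 2 * w < |y n - pl y r a n|) := by
      intro n hn
      rw [mem_filter] at hn
      rw [mem_union]
      by_cases h : a + 1 ≤ n
      · right
        exact mem_filter.2 ⟨hn.1, h, by linarith [hn.2]⟩
      · left
        exact mem_range.2 (by omega)
    have h2 := (card_le_card h1).trans (card_union_le _ _)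
    rw [card_range] at h2
    have h3 : (((Icc 1 N).filter (fun n => K < |y n - pl y r a n|)).card : ℝ) ≤
        ((a + 1 : ℕ) : ℝ) + (((Icc 1 N).filter (fun n => a + 1 ≤ n ∧ 2 * w < |y n - pl y r a n|)).card : ℝ) := by
      exact_mod_cast h2
    have h4 : ((a + 1 : ℕ) : ℝ) ≤ r := by exact_mod_cast ha
    have : 0 ≤ η * N := by positivity
    linarith

end Pool.Agent.U965.ZL
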