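import Mathlib

/-! # Piecewise linear approximation of a sequence with small fluctuations (helper965) -/

set_option autoImplicit false

open Filter Finset

namespace Pool.Agent.U965.ZL

/-- start of the block of length `r` with offset `a` which contains `n` -/
def st (r a n : ℕ) : ℕ := a + 1 + (n - (a + 1)) / r * r

/-- the piecewise linear interpolation with the nodes `a + 1 + m r` -/
noncomputable def pl (y : ℕ → ℝ) (r a n : ℕ) : ℝ :=
  y (st r a n) + ((n : ℝ) - st r a n) / r * (y (st r a n + r) - y (st r a n))

lemma st_le {r a n : ℕ} (h : a + 1 ≤ n) : st r a n ≤ n := by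
  unfold st
  have := Nat.div_mul_le_self (n - (a + 1)) r
  omega

lemma lt_st_add {r a n : ℕ} (hr : 0 < r) : n < st r a n + r := by
  unfold st
  have h1 := Nat.div_add_mod (n - (a + 1)) r
  have h2 := Nat.mod_lt (n - (a + 1)) hr
  have h3 : (n - (a + 1)) / r * r = r * ((n - (a + 1)) / r) := mul_comm _ _
  omega

lemma st_mod {r a n : ℕ} : st r a n ≡ a + 1 [MOD r] := by
  unfold st
  have : a + 1 + (n - (a + 1)) / r * r ≡ a + 1 + 0 [MOD r] := by
    apply Nat.ModEq.add_left
    exact (Nat.modEq_zero_iff_dvd).2 (Dvd.intro_left _ rfl)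
  simpa using this

/-- the value at the next node is the value of the linear extension -/
lemma pl_eq_of (y : ℕ → ℝ) {r a n m : ℕ} (hr : 0 < r) (h : st r a m = st r a n ∨ (m = st r a n + r ∧ a + 1 ≤ m)) :
    pl y r a m = y (st r a n) + ((m : ℝ) - st r a n) / r * (y (st r a n + r) - y (st r a n)) := by
  have hr0 : (r : ℝ) ≠ 0 := by exact_mod_cast hr.ne'
  rcases h with h | ⟨h, h'⟩
  · unfold pl
    rw [h]
  · have h1 : st r a m = m := by
      subst h
      unfold st
      have h2 : a + 1 + (n - (a + 1)) / r * r + r - (a + 1) = ((n - (a + 1)) / r + 1) * r := by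
        rw [add_mul]; omega
      rw [h2, Nat.mul_div_cancel _ hr, add_mul]
      omega
    unfold pl
    rw [h1]
    rw [h]
    push_cast
    field_simp
    ring

/-- the second difference vanishes if `n + 1` is not a node -/
lemma second_diff (y : ℕ → ℝ) {r a n : ℕ} (hr : 0 < r) (h : ¬ r ∣ (n - a) ∨ n ≤ a) :
    pl y r a (n + 2) - 2 * pl y r a (n + 1) + pl y r a n = 0 := by
  have key : st r a (n + 1) = st r a n ∧
      (st r a (n + 2) = st r a n ∨ (n + 2 = st r a n + r ∧ a + 1 ≤ n + 2)) := by
    unfold st
    by_cases hna : n ≤ a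
    · have e1 : n - (a + 1) = 0 := by omega
      have e2 : n + 1 - (a + 1) = 0 := by omega
      rw [e1, e2]
      refine ⟨rfl, ?_⟩
      by_cases hna' : n + 1 ≤ a
      · left
        have e3 : n + 2 - (a + 1) = 0 := by omega
        rw [e3]
      · have e3 : n + 2 - (a + 1) = 1 := by omega
        rw [e3]
        rcases Nat.lt_or_ge 1 r with h1 | h1
        · left
          rw [Nat.div_eq_of_lt h1]
          simp
        · right
          have : r = 1 := by omega
          subst this
          simp
          omega
    · push Not at hna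
      have hd : ¬ r ∣ (n - a) := by
        rcases h with h | h
        · exact h
        · omega
      obtain ⟨k, hk⟩ : ∃ k, n = a + 1 + k := ⟨n - (a + 1), by omega⟩
      subst hk
      have e0 : a + 1 + k - a = k + 1 := by omega
      rw [e0] at hd
      have e1 : a + 1 + k - (a + 1) = k := by omega
      have e2 : a + 1 + k + 1 - (a + 1) = k + 1 := by omega
      have e3 : a + 1 + k + 2 - (a + 1) = k + 2 := by omega
      rw [e1, e2, e3]
      have h1 : (k + 1) / r = k / r := by
        rw [Nat.succ_div]
        simp [hd]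
      refine ⟨by rw [h1], ?_⟩
      have h2 : (k + 2) / r = (k + 1) / r + if r ∣ k + 1 + 1 then 1 else 0 := Nat.succ_div
      by_cases hd2 : r ∣ k + 1 + 1
      · right
        rw [if_pos hd2] at h2
        obtain ⟨c, hc⟩ := hd2
        have h3 : (k + 2) / r = c := by
          rw [show k + 2 = r * c from hc]
          exact Nat.mul_div_cancel_left _ hr
        have h4 : k / r + 1 = c := by omega
        constructor
        · have h5 : (k / r + 1) * r = r * c := by rw [h4, mul_comm]
          rw [add_mul, one_mul] at h5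
          omega
        · omega
      · left
        rw [if_neg hd2] at h2
        rw [h2, add_zero, h1]
  rw [pl_eq_of y hr key.2, pl_eq_of y hr (Or.inl key.1), pl_eq_of y hr (Or.inl rfl : st r a n = st r a n ∨ _)]
  push_cast
  ring

/-- distance at a position in a good block -/
lemma dist_le (y : ℕ → ℝ) {r a n : ℕ} (hr : 0 < r) (han : a + 1 ≤ n) {w : ℝ}
    (h1 : |y n - y (st r a n) - ((n - st r a n : ℕ) : ℝ)| ≤ w)
    (h2 : |y (st r a n + r) - y (st r a n) - r| ≤ w) : |y n - pl y r a n| ≤ 2 * w := by
  have hr0 : (0 : ℝ) < r := by exact_mod_cast hr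
  have hle := st_le (r := r) han
  have hlt := lt_st_add (a := a) (n := n) hr
  have hcast : ((n - st r a n : ℕ) : ℝ) = (n : ℝ) - st r a n := by
    rw [Nat.cast_sub hle]
  rw [hcast] at h1
  have ht0 : 0 ≤ ((n : ℝ) - st r a n) / r := by
    apply div_nonneg _ hr0.le
    have : ((st r a n : ℕ) : ℝ) ≤ n := by exact_mod_cast hle
    linarith
  have ht1 : ((n : ℝ) - st r a n) / r ≤ 1 := by
    rw [div_le_one hr0]
    have : (n : ℝ) < (st r a n : ℕ) + r := by exact_mod_cast hlt
    linarith
  have e : y n - pl y r a n = (y n - y (st r a n) - ((n : ℝ) - st r a n)) -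
      ((n : ℝ) - st r a n) / r * (y (st r a n + r) - y (st r a n) - r) := by
    unfold pl
    field_simp
    ring
  rw [e]
  refine (abs_sub _ _).trans ?_
  rw [abs_mul, abs_of_nonneg ht0]
  have hw : 0 ≤ w := (abs_nonneg _).trans h1
  have := mul_le_mul ht1 h2 (abs_nonneg _) zero_le_one
  linarith

end Pool.Agent.U965.ZL
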